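import Mathlib

/-!
# `n`-fold torsion-free classes and `K^m E`-closed subcategories
-/

namespace Pool.Agent.V11196.TFree

open CategoryTheory

universe v u

variable {C : Type u} [Category.{v} C] [Abelian C]

/-- `F` is a torsion-free class of the subcategory `E` of the abelian category `C`: it is contained in
`E`, closed under isomorphisms, and for every short exact sequence `0 → L → M → N → 0` with `L`, `M`,
`N` in `E`: if `L`, `N` are in `F` then `M` is in `F`, and if `M` is in `F` then `L` is in `F`. -/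
structure IsTorsionFreeClassOf (F E : ObjectProperty C) : Prop where
  le : F ≤ E
  iso : F.IsClosedUnderIsomorphisms
  conflation : ∀ S : ShortComplex C, S.ShortExact → E S.X₁ → E S.X₂ → E S.X₃ →
    F S.X₁ → F S.X₃ → F S.X₂
  subobject : ∀ S : ShortComplex C, S.ShortExact → E S.X₁ → E S.X₂ → E S.X₃ → F S.X₂ → F S.X₁

/-- `X` is an `n`-fold torsion-free class of `C`: there is a chain `C = F₀ ⊇ F₁ ⊇ ⋯ ⊇ Fₙ = X` with
`F₍ᵢ₊₁₎` a torsion-free class of `Fᵢ`. -/
def IsNFoldTorsionFree : ℕ → ObjectProperty C → Prop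
  | 0, X => ∀ M, X M
  | n + 1, X => ∃ E : ObjectProperty C, IsNFoldTorsionFree n E ∧ IsTorsionFreeClassOf X E

/-- `X` is `K^m E`-closed: it is closed under isomorphisms, under extensions and under `m`-kernels,
i.e. whenever `0 → M → X⁰ → X¹ → ⋯ → Xᵐ` is exact with all `Xⁱ` in `X`, then `M` is in `X`. -/
structure IsKEClosed (m : ℕ) (X : ObjectProperty C) : Prop where
  iso : X.IsClosedUnderIsomorphisms
  extension : ∀ S : ShortComplex C, S.ShortExact → X S.X₁ → X S.X₃ → X S.X₂
  kernel : ∀ S : ComposableArrows C (m + 1), S.Exact → Mono (S.map' 0 1) →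
    (∀ i : Fin (m + 2), i ≠ 0 → X (S.obj i)) → X (S.obj 0)

end Pool.Agent.V11196.TFree
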