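import Pool.Agent.V11196.TFree.Functors

/-!
# The counterexample

The poset is `v0 < {v1, s1} < v2 < {v3, s2} < v4`.
-/

namespace Pool.Agent.V11196.TFree

open CategoryTheory Limits

/-- The seven element poset. -/
inductive P7 : Type
  | v0 | v1 | s1 | v2 | v3 | s2 | v4
  deriving DecidableEq

open P7

instance : Fintype P7 := ⟨{v0, v1, s1, v2, v3, s2, v4}, fun x => by cases x <;> decide⟩

/-- the order, as a boolean table -/
def leB : P7 → P7 → Bool
  | v0, _ => true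
  | v1, v0 => false
  | v1, s1 => false
  | v1, _ => true
  | s1, v0 => false
  | s1, v1 => false
  | s1, _ => true
  | v2, v2 => true
  | v2, v3 => true
  | v2, s2 => true
  | v2, v4 => true
  | v2, _ => false
  | v3, v3 => true
  | v3, v4 => true
  | v3, _ => false
  | s2, s2 => true
  | s2, v4 => true
  | s2, _ => false
  | v4, v4 => true
  | v4, _ => false

instance : PartialOrder P7 where
  le a b := leB a b = true
  le_refl := by decide
  le_trans := by decide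
  le_antisymm := by decide

instance (a b : P7) : Decidable (a ≤ b) := inferInstanceAs (Decidable (leB a b = true))

abbrev R7 := Rep P7

/-- transition map on elements -/
def tr (F : R7) (p q : P7) (h : p ≤ q) (x : F.obj p) : F.obj q :=
  (F.map (homOfLE h)).hom x

lemma tr_tr (F : R7) {p q r : P7} (h : p ≤ q) (h' : q ≤ r) (x : F.obj p) :
    tr F q r h' (tr F p q h x) = tr F p r (h.trans h') x := by
  unfold tr
  rw [← map_comp_apply]
  rfl

lemma tr_add (F : R7) {p q : P7} (h : p ≤ q) (x y : F.obj p) :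
    tr F p q h (x + y) = tr F p q h x + tr F p q h y := map_add _ _ _

lemma tr_sub (F : R7) {p q : P7} (h : p ≤ q) (x y : F.obj p) :
    tr F p q h (x - y) = tr F p q h x - tr F p q h y := map_sub _ _ _

lemma tr_zero (F : R7) {p q : P7} (h : p ≤ q) : tr F p q h 0 = 0 := map_zero _

lemma app_tr {F G : R7} (f : F ⟶ G) {p q : P7} (h : p ≤ q) (x : F.obj p) :
    (f.app q).hom (tr F p q h x) = tr G p q h ((f.app p).hom x) := nat_apply f _ x

/-- The subcategory: functors vanishing at `s1`, `s2` for which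
`0 → F(v0) → F(v1) → F(v3) → F(v4) → 0` is exact. -/
structure IsX (F : R7) : Prop where
  zero_s1 : ∀ x : F.obj s1, x = 0
  zero_s2 : ∀ x : F.obj s2, x = 0
  inj : ∀ x : F.obj v0, tr F v0 v1 (by decide) x = 0 → x = 0
  ex1 : ∀ x : F.obj v1, tr F v1 v3 (by decide) x = 0 → ∃ t : F.obj v0, tr F v0 v1 (by decide) t = x
  ex3 : ∀ x : F.obj v3, tr F v3 v4 (by decide) x = 0 → ∃ t : F.obj v1, tr F v1 v3 (by decide) t = x
  surj : ∀ x : F.obj v4, ∃ t : F.obj v3, tr F v3 v4 (by decide) t = x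

/-- as an object property -/
def XX : ObjectProperty R7 := fun F => IsX F

lemma IsX.tr03 {F : R7} (hF : IsX F) (x : F.obj v0) : tr F v0 v3 (by decide) x = 0 := by
  rw [← tr_tr F (show v0 ≤ s1 by decide) (show s1 ≤ v3 by decide), hF.zero_s1 (tr F v0 s1 _ x), tr_zero]

lemma IsX.tr02 {F : R7} (hF : IsX F) (x : F.obj v0) : tr F v0 v2 (by decide) x = 0 := by
  rw [← tr_tr F (show v0 ≤ s1 by decide) (show s1 ≤ v2 by decide), hF.zero_s1 (tr F v0 s1 _ x), tr_zero]

lemma IsX.tr14 {F : R7} (hF : IsX F) (x : F.obj v1) : tr F v1 v4 (by decide) x = 0 := by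
  rw [← tr_tr F (show v1 ≤ s2 by decide) (show s2 ≤ v4 by decide), hF.zero_s2 (tr F v1 s2 _ x), tr_zero]

lemma IsX.tr24 {F : R7} (hF : IsX F) (x : F.obj v2) : tr F v2 v4 (by decide) x = 0 := by
  rw [← tr_tr F (show v2 ≤ s2 by decide) (show s2 ≤ v4 by decide), hF.zero_s2 (tr F v2 s2 _ x), tr_zero]

lemma isX_of_iso {F G : R7} (e : F ≅ G) (hF : IsX F) : IsX G := by
  have hinj : ∀ p, Function.Injective (e.inv.app p).hom := fun p => injective_of_mono e.inv p
  have hi : ∀ (p : P7) (x : G.obj p), (e.hom.app p).hom ((e.inv.app p).hom x) = x := by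
    intro p x
    have := congrArg (fun k => k.hom x) (e.inv_hom_id_app p)
    exact this
  refine ⟨fun x => ?_, fun x => ?_, fun x hx => ?_, fun x hx => ?_, fun x hx => ?_, fun x => ?_⟩
  · exact hinj _ (by rw [hF.zero_s1 ((e.inv.app s1).hom x), map_zero])
  · exact hinj _ (by rw [hF.zero_s2 ((e.inv.app s2).hom x), map_zero])
  · apply hinj
    rw [map_zero]
    apply hF.inj
    rw [← app_tr, hx, map_zero]
  · obtain ⟨t, ht⟩ := hF.ex1 ((e.inv.app v1).hom x) (by rw [← app_tr, hx, map_zero])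
    refine ⟨(e.hom.app v0).hom t, ?_⟩
    rw [← app_tr, ht, hi]
  · obtain ⟨t, ht⟩ := hF.ex3 ((e.inv.app v3).hom x) (by rw [← app_tr, hx, map_zero])
    refine ⟨(e.hom.app v1).hom t, ?_⟩
    rw [← app_tr, ht, hi]
  · obtain ⟨t, ht⟩ := hF.surj ((e.inv.app v4).hom x)
    refine ⟨(e.hom.app v3).hom t, ?_⟩
    rw [← app_tr, ht, hi]

/-- closure under extensions -/
lemma isX_extension (S : ShortComplex R7) (hS : S.ShortExact) (h1 : IsX S.X₁) (h3 : IsX S.X₃) :
    IsX S.X₂ := by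
  have := hS.mono_f
  have := hS.epi_g
  have hf := injective_of_mono S.f
  have hg := surjective_of_epi S.g
  have hex := exact_eval hS.exact
  have hgf : ∀ (p : P7) (x : S.X₁.obj p), (S.g.app p).hom ((S.f.app p).hom x) = 0 := by
    intro p x
    have := congrArg (fun k => (k.app p).hom x) S.zero
    exact this
  have z1 : ∀ x : S.X₂.obj s1, x = 0 := by
    intro x
    obtain ⟨y, hy⟩ := hex s1 x (h3.zero_s1 _)
    rw [← hy, h1.zero_s1 y, map_zero]
  have z2 : ∀ x : S.X₂.obj s2, x = 0 := by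
    intro x
    obtain ⟨y, hy⟩ := hex s2 x (h3.zero_s2 _)
    rw [← hy, h1.zero_s2 y, map_zero]
  have t03 : ∀ x : S.X₂.obj v0, tr S.X₂ v0 v3 (by decide) x = 0 := by
    intro x
    rw [← tr_tr S.X₂ (show v0 ≤ s1 by decide) (show s1 ≤ v3 by decide), z1 (tr S.X₂ v0 s1 _ x),
      tr_zero]
  have t14 : ∀ x : S.X₂.obj v1, tr S.X₂ v1 v4 (by decide) x = 0 := by
    intro x
    rw [← tr_tr S.X₂ (show v1 ≤ s2 by decide) (show s2 ≤ v4 by decide), z2 (tr S.X₂ v1 s2 _ x),
      tr_zero]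
  refine ⟨z1, z2, fun x hx => ?_, fun x hx => ?_, fun x hx => ?_, fun x => ?_⟩
  · have e1 : (S.g.app v0).hom x = 0 := h3.inj _ (by rw [← app_tr, hx, map_zero])
    obtain ⟨y, hy⟩ := hex v0 x e1
    have e2 : y = 0 := h1.inj _ (hf v1 (by rw [app_tr, hy, hx, map_zero]))
    rw [← hy, e2, map_zero]
  · obtain ⟨t, ht⟩ := h3.ex1 ((S.g.app v1).hom x) (by rw [← app_tr, hx, map_zero])
    obtain ⟨u, hu⟩ := hg v0 t
    obtain ⟨y, hy⟩ := hex v1 (x - tr S.X₂ v0 v1 (by decide) u) (by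
      rw [map_sub, app_tr, hu, ht, sub_self])
    obtain ⟨w, hw⟩ := h1.ex1 y (hf v3 (by
      rw [app_tr, hy, tr_sub, hx, tr_tr, t03, sub_zero, map_zero]))
    refine ⟨u + (S.f.app v0).hom w, ?_⟩
    rw [tr_add, ← app_tr, hw, hy]
    abel
  · obtain ⟨t, ht⟩ := h3.ex3 ((S.g.app v3).hom x) (by rw [← app_tr, hx, map_zero])
    obtain ⟨u, hu⟩ := hg v1 t
    obtain ⟨y, hy⟩ := hex v3 (x - tr S.X₂ v1 v3 (by decide) u) (by
      rw [map_sub, app_tr, hu, ht, sub_self])
    obtain ⟨w, hw⟩ := h1.ex3 y (hf v4 (by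
      rw [app_tr, hy, tr_sub, hx, tr_tr, t14, sub_zero, map_zero]))
    refine ⟨u + (S.f.app v1).hom w, ?_⟩
    rw [tr_add, ← app_tr, hw, hy]
    abel
  · obtain ⟨t, ht⟩ := h3.surj ((S.g.app v4).hom x)
    obtain ⟨u, hu⟩ := hg v3 t
    obtain ⟨y, hy⟩ := hex v4 (x - tr S.X₂ v3 v4 (by decide) u) (by
      rw [map_sub, app_tr, hu, ht, sub_self])
    obtain ⟨w, hw⟩ := h1.surj y
    refine ⟨u + (S.f.app v3).hom w, ?_⟩
    rw [tr_add, ← app_tr, hw, hy]
    abel

/-- closure under `2`-kernels -/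
lemma isX_kernel {M X0 X1 X2 : R7} (i : M ⟶ X0) (d0 : X0 ⟶ X1) (d1 : X1 ⟶ X2) [Mono i]
    (hid : ∀ (p : P7) (x : M.obj p), (d0.app p).hom ((i.app p).hom x) = 0)
    (hdd : ∀ (p : P7) (x : X0.obj p), (d1.app p).hom ((d0.app p).hom x) = 0)
    (ex0 : ∀ (p : P7) (x : X0.obj p), (d0.app p).hom x = 0 → ∃ y, (i.app p).hom y = x)
    (ex1 : ∀ (p : P7) (x : X1.obj p), (d1.app p).hom x = 0 → ∃ y, (d0.app p).hom y = x)
    (h0 : IsX X0) (h1 : IsX X1) (h2 : IsX X2) : IsX M := by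
  have hi := injective_of_mono i
  have z1 : ∀ x : M.obj s1, x = 0 := fun x => hi s1 (by rw [h0.zero_s1 ((i.app s1).hom x), map_zero])
  have z2 : ∀ x : M.obj s2, x = 0 := fun x => hi s2 (by rw [h0.zero_s2 ((i.app s2).hom x), map_zero])
  refine ⟨z1, z2, fun x hx => ?_, fun x hx => ?_, fun x hx => ?_, fun x => ?_⟩
  · apply hi
    rw [map_zero]
    apply h0.inj
    rw [← app_tr, hx, map_zero]
  · obtain ⟨t, ht⟩ := h0.ex1 ((i.app v1).hom x) (by rw [← app_tr, hx, map_zero])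
    have e1 : (d0.app v0).hom t = 0 := h1.inj _ (by rw [← app_tr, ht, hid])
    obtain ⟨y, hy⟩ := ex0 v0 t e1
    exact ⟨y, hi v1 (by rw [app_tr, hy, ht])⟩
  · obtain ⟨t, ht⟩ := h0.ex3 ((i.app v3).hom x) (by rw [← app_tr, hx, map_zero])
    obtain ⟨u, hu⟩ := h1.ex1 ((d0.app v1).hom t) (by rw [← app_tr, ht, hid])
    have e1 : (d1.app v0).hom u = 0 := h2.inj _ (by rw [← app_tr, hu, hdd])
    obtain ⟨w, hw⟩ := ex1 v0 u e1
    have e2 : (d0.app v1).hom (t - tr X0 v0 v1 (by decide) w) = 0 := by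
      rw [map_sub, app_tr, hw, hu, sub_self]
    obtain ⟨y, hy⟩ := ex0 v1 _ e2
    refine ⟨y, hi v3 ?_⟩
    rw [app_tr, hy, tr_sub, ht, tr_tr, h0.tr03, sub_zero]
  · obtain ⟨t, ht⟩ := h0.surj ((i.app v4).hom x)
    obtain ⟨z, hz⟩ := h1.ex3 ((d0.app v3).hom t) (by rw [← app_tr, ht, hid])
    obtain ⟨u, hu⟩ := h2.ex1 ((d1.app v1).hom z) (by rw [← app_tr, hz, hdd])
    have e1 : (d1.app v2).hom (tr X1 v1 v2 (by decide) z) = 0 := by
      rw [app_tr, ← hu, tr_tr, h2.tr02]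
    obtain ⟨w, hw⟩ := ex1 v2 _ e1
    have e2 : (d0.app v3).hom (t - tr X0 v2 v3 (by decide) w) = 0 := by
      rw [map_sub, app_tr, hw, tr_tr, hz, sub_self]
    obtain ⟨y, hy⟩ := ex0 v3 _ e2
    refine ⟨y, hi v4 ?_⟩
    rw [app_tr, hy, tr_sub, ht, tr_tr, h0.tr24, sub_zero]

theorem isKEClosed_XX : IsKEClosed 2 XX where
  iso := ⟨fun e h => isX_of_iso e h⟩
  extension := isX_extension
  kernel := by
    intro S hS hmono hX
    have := hmono
    have e0 := hS.exact 0 (by norm_num)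
    have e1 := hS.exact 1 (by norm_num)
    have h01 : (0 : ℕ) ≤ 1 := by norm_num
    have h12 : (1 : ℕ) ≤ 2 := by norm_num
    have h23 : (2 : ℕ) ≤ 3 := by norm_num
    have h1 : (1 : ℕ) ≤ 2 + 1 := by norm_num
    have h2 : (2 : ℕ) ≤ 2 + 1 := by norm_num
    have h3 : (3 : ℕ) ≤ 2 + 1 := by norm_num
    refine isX_kernel (S.map' 0 1 h01 h1) (S.map' 1 2 h12 h2) (S.map' 2 3 h23 h3) ?_ ?_ ?_ ?_
      (hX 1 (by decide)) (hX 2 (by decide)) (hX 3 (by decide))
    · intro p x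
      have h := hS.toIsComplex.zero 0 (by norm_num)
      exact congrArg (fun k => (k.app p).hom x) h
    · intro p x
      have h := hS.toIsComplex.zero 1 (by norm_num)
      exact congrArg (fun k => (k.app p).hom x) h
    · exact exact_eval e0
    · exact exact_eval e1

end Pool.Agent.V11196.TFree
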