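import Pool.Agent.V11196.TFree.Defs

/-!
# Exactness in functor categories with values in modules, elementwise
-/

namespace Pool.Agent.V11196.TFree

open CategoryTheory Limits

variable {J : Type} [SmallCategory J]

abbrev Rep (J : Type) [SmallCategory J] := J ⥤ ModuleCat.{0} ℚ

/-- elementwise naturality -/
lemma nat_apply {F G : Rep J} (f : F ⟶ G) {p q : J} (a : p ⟶ q) (x : F.obj p) :
    (f.app q).hom ((F.map a).hom x) = (G.map a).hom ((f.app p).hom x) := by
  have h := f.naturality a
  exact congrArg (fun k => k.hom x) h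

lemma map_comp_apply (F : Rep J) {p q r : J} (a : p ⟶ q) (b : q ⟶ r) (x : F.obj p) :
    (F.map (a ≫ b)).hom x = (F.map b).hom ((F.map a).hom x) := by
  rw [F.map_comp]
  rfl

lemma injective_of_mono {F G : Rep J} (f : F ⟶ G) [Mono f] (p : J) :
    Function.Injective (f.app p).hom :=
  (ModuleCat.mono_iff_injective (f.app p)).1 inferInstance

lemma surjective_of_epi {F G : Rep J} (f : F ⟶ G) [Epi f] (p : J) :
    Function.Surjective (f.app p).hom :=
  (ModuleCat.epi_iff_surjective (f.app p)).1 inferInstance

lemma exact_eval {S : ShortComplex (Rep J)} (hS : S.Exact) (p : J) (x : S.X₂.obj p)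
    (hx : (S.g.app p).hom x = 0) : ∃ y : S.X₁.obj p, (S.f.app p).hom y = x := by
  have h := hS.map ((evaluation J (ModuleCat.{0} ℚ)).obj p)
  rw [ShortComplex.moduleCat_exact_iff] at h
  exact h x hx

lemma exact_of_eval (S : ShortComplex (Rep J))
    (h : ∀ (p : J) (x : S.X₂.obj p), (S.g.app p).hom x = 0 →
      ∃ y : S.X₁.obj p, (S.f.app p).hom y = x) : S.Exact := by
  rw [ShortComplex.exact_iff_isZero_homology]
  apply Functor.isZero
  intro p
  have h1 : (S.map ((evaluation J (ModuleCat.{0} ℚ)).obj p)).Exact := by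
    rw [ShortComplex.moduleCat_exact_iff]
    exact h p
  rw [ShortComplex.exact_iff_isZero_homology] at h1
  exact h1.of_iso (S.mapHomologyIso ((evaluation J (ModuleCat.{0} ℚ)).obj p)).symm

lemma shortExact_of_eval (S : ShortComplex (Rep J))
    (hf : ∀ p, Function.Injective (S.f.app p).hom) (hg : ∀ p, Function.Surjective (S.g.app p).hom)
    (h : ∀ (p : J) (x : S.X₂.obj p), (S.g.app p).hom x = 0 →
      ∃ y : S.X₁.obj p, (S.f.app p).hom y = x) : S.ShortExact where
  exact := exact_of_eval S h
  mono_f := by
    have : ∀ p, Mono (S.f.app p) := fun p => (ModuleCat.mono_iff_injective _).2 (hf p)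
    exact NatTrans.mono_of_mono_app _
  epi_g := by
    have : ∀ p, Epi (S.g.app p) := fun p => (ModuleCat.epi_iff_surjective _).2 (hg p)
    exact NatTrans.epi_of_epi_app _

end Pool.Agent.V11196.TFree
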