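import Pool.Agent.V11196.TFree.Example

namespace Pool.Agent.V11196.TFree

open CategoryTheory Limits P7

/-- `ℚ` at the points of `S`, `0` elsewhere. -/
def fib (S : P7 → Bool) (p : P7) : Submodule ℚ ℚ where
  carrier := {x | S p = false → x = 0}
  zero_mem' := fun _ => rfl
  add_mem' := fun ha hb h => by rw [ha h, hb h, add_zero]
  smul_mem' := fun c x hx h => by rw [hx h, smul_zero]

lemma fib_mem_of {S : P7 → Bool} {p : P7} (h : S p = true) (x : ℚ) : x ∈ fib S p := by
  intro h'
  rw [h] at h'
  cases h'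

/-- multiplication by the indicator of `T` at `q` -/
def cutF (S T : P7 → Bool) (p q : P7) : fib S p →ₗ[ℚ] fib T q where
  toFun x := ⟨if T q then x.1 else 0, fun h => by simp [h]⟩
  map_add' x y := by
    apply Subtype.ext
    by_cases h : T q <;> simp [h]
  map_smul' c x := by
    apply Subtype.ext
    by_cases h : T q <;> simp [h]

lemma cutF_val (S T : P7 → Bool) (p q : P7) (x : fib S p) :
    (cutF S T p q x).1 = if T q then x.1 else 0 := rfl

/-- convexity -/
def Cvx (S : P7 → Bool) : Prop := ∀ p q r : P7, p ≤ q → q ≤ r → S p = true → S r = true → S q = true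

instance (S : P7 → Bool) : Decidable (Cvx S) := by
  unfold Cvx
  infer_instance

/-- The interval representation. -/
def iv (S : P7 → Bool) (hS : Cvx S) : R7 where
  obj p := ModuleCat.of ℚ (fib S p)
  map {p q} _ := ModuleCat.ofHom (cutF S S p q)
  map_id p := by
    ext x
    show (if S p then (x : fib S p).1 else 0) = (x : fib S p).1
    by_cases h : S p
    · simp [h]
    · have := (x : fib S p).2 (by simpa using h)
      simp [h, this]
  map_comp {p q r} a b := by
    ext x
    show (if S r then (x : fib S p).1 else 0) = if S r then (if S q then (x : fib S p).1 else 0) else 0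
    by_cases h : S r
    · by_cases h' : S q
      · simp [h, h']
      · have h0 : (x : fib S p).1 = 0 := by
          by_cases h'' : S p
          · exact absurd (hS p q r a.le b.le h'' h) h'
          · exact (x : fib S p).2 (by simpa using h'')
        simp [h, h', h0]
    · simp [h]

/-- compatibility for a map between intervals -/
def Cmp (S T : P7 → Bool) : Prop :=
  ∀ p q : P7, p ≤ q → S p = true → T q = true → (S q = true ↔ T p = true)

instance (S T : P7 → Bool) : Decidable (Cmp S T) := by
  unfold Cmp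
  infer_instance

/-- The map between interval representations. -/
def ivMap (S T : P7 → Bool) (hS : Cvx S) (hT : Cvx T) (h : Cmp S T) : iv S hS ⟶ iv T hT where
  app p := ModuleCat.ofHom (cutF S T p p)
  naturality p q a := by
    ext x
    apply Subtype.ext
    show (if T q then (if S q then (x : fib S p).1 else 0) else 0) =
      if T q then (if T p then (x : fib S p).1 else 0) else 0
    by_cases hq : T q
    · by_cases hp : S p
      · have h1 := h p q a.le hp hq
        by_cases h2 : S q
        · simp [hq, h2, h1.1 h2]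
        · have h3 : ¬ T p = true := fun h4 => h2 (h1.2 h4)
          simp [hq, h2, h3]
      · have h0 : (x : fib S p).1 = 0 := (x : fib S p).2 (by simpa using hp)
        simp [h0]
    · simp [hq]

/-- The short complex `0 → iv S₁ → iv S → iv S₂ → 0`. -/
def ivSC (S₁ S S₂ : P7 → Bool) (h₁ : Cvx S₁) (h : Cvx S) (h₂ : Cvx S₂) (c₁ : Cmp S₁ S)
    (c₂ : Cmp S S₂) (hd : ∀ p, S₁ p = true → S₂ p = false) : ShortComplex R7 where
  X₁ := iv S₁ h₁
  X₂ := iv S h
  X₃ := iv S₂ h₂
  f := ivMap S₁ S h₁ h c₁
  g := ivMap S S₂ h h₂ c₂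
  zero := by
    ext p x
    apply Subtype.ext
    show (if S₂ p then (if S p then (x : fib S₁ p).1 else 0) else 0) = 0
    by_cases hp : S₂ p
    · have h0 : (x : fib S₁ p).1 = 0 := by
        apply (x : fib S₁ p).2
        by_contra hc
        have := hd p (by simpa using hc)
        rw [this] at hp
        cases hp
      simp [h0]
    · simp [hp]

lemma ivSC_shortExact (S₁ S S₂ : P7 → Bool) (h₁ : Cvx S₁) (h : Cvx S) (h₂ : Cvx S₂) (c₁ : Cmp S₁ S)
    (c₂ : Cmp S S₂) (hd : ∀ p, S₁ p = true → S₂ p = false)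
    (hu : ∀ p, S p = true ↔ (S₁ p = true ∨ S₂ p = true)) :
    (ivSC S₁ S S₂ h₁ h h₂ c₁ c₂ hd).ShortExact := by
  apply shortExact_of_eval
  · intro p x y hxy
    have h1 : (if S p then (x : fib S₁ p).1 else 0) = if S p then (y : fib S₁ p).1 else 0 :=
      congrArg Subtype.val hxy
    apply Subtype.ext
    by_cases hp : S₁ p
    · have := (hu p).2 (Or.inl hp)
      simpa [this] using h1
    · have e1 : (x : fib S₁ p).1 = 0 := (x : fib S₁ p).2 (by simpa using hp)
      have e2 : (y : fib S₁ p).1 = 0 := (y : fib S₁ p).2 (by simpa using hp)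
      exact e1.trans e2.symm
  · intro p x
    by_cases hp : S₂ p
    · have hSp := (hu p).2 (Or.inr hp)
      refine ⟨(⟨(x : fib S₂ p).1, fib_mem_of hSp _⟩ : fib S p), ?_⟩
      apply Subtype.ext
      show (if S₂ p then (x : fib S₂ p).1 else 0) = (x : fib S₂ p).1
      simp [hp]
    · refine ⟨0, ?_⟩
      apply Subtype.ext
      have e1 : (x : fib S₂ p).1 = 0 := (x : fib S₂ p).2 (by simpa using hp)
      rw [map_zero]
      exact e1.symm
  · intro p x hx
    have h1 : (if S₂ p then (x : fib S p).1 else 0) = 0 := congrArg Subtype.val hx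
    by_cases hp : S₁ p
    · have hSp := (hu p).2 (Or.inl hp)
      refine ⟨(⟨(x : fib S p).1, fib_mem_of hp _⟩ : fib S₁ p), ?_⟩
      apply Subtype.ext
      show (if S p then (x : fib S p).1 else 0) = (x : fib S p).1
      simp [hSp]
    · refine ⟨0, ?_⟩
      apply Subtype.ext
      rw [map_zero]
      show (0 : ℚ) = (x : fib S p).1
      by_cases hp2 : S₂ p
      · simpa [hp2] using h1.symm
      · have hSp : S p = false := by
          by_contra hc
          rcases (hu p).1 (by simpa using hc) with h3 | h3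
          · exact hp h3
          · exact hp2 h3
        exact ((x : fib S p).2 hSp).symm

/-- the sets -/
def sA : P7 → Bool | v0 => true | v1 => true | _ => false
def sB : P7 → Bool | v2 => true | _ => false
def sC : P7 → Bool | v1 => true | v2 => true | v3 => true | _ => false
def sD : P7 → Bool | v3 => true | v4 => true | _ => false
def s0 : P7 → Bool | v0 => true | _ => false
def s11 : P7 → Bool | v1 => true | _ => false
def s12 : P7 → Bool | v1 => true | v2 => true | _ => false
def s33 : P7 → Bool | v3 => true | _ => false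
def s44 : P7 → Bool | v4 => true | _ => false

lemma iv_eq_zero {S : P7 → Bool} {hS : Cvx S} {p : P7} (h : S p = false) (x : (iv S hS).obj p) :
    x = 0 := Subtype.ext ((x : fib S p).2 h)

lemma tr_iv {S : P7 → Bool} {hS : Cvx S} {p q : P7} (h : p ≤ q) (hq : S q = true)
    (x : (iv S hS).obj p) : ((tr (iv S hS) p q h x : (iv S hS).obj q) : fib S q).1 = (x : fib S p).1 := by
  show (if S q then (x : fib S p).1 else 0) = (x : fib S p).1
  simp [hq]

lemma isX_A : IsX (iv sA (by decide)) where
  zero_s1 := iv_eq_zero rfl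
  zero_s2 := iv_eq_zero rfl
  inj x hx := by
    apply Subtype.ext
    rw [← tr_iv (show v0 ≤ v1 by decide) rfl x, hx]
    rfl
  ex1 x _ := ⟨(⟨(x : fib sA v1).1, fib_mem_of rfl _⟩ : fib sA v0), Subtype.ext rfl⟩
  ex3 x _ := ⟨0, by rw [iv_eq_zero rfl x, tr_zero]⟩
  surj x := ⟨0, by rw [iv_eq_zero rfl x, tr_zero]⟩

lemma isX_B : IsX (iv sB (by decide)) where
  zero_s1 := iv_eq_zero rfl
  zero_s2 := iv_eq_zero rfl
  inj x _ := iv_eq_zero rfl x
  ex1 x _ := ⟨0, by rw [iv_eq_zero rfl x, tr_zero]⟩
  ex3 x _ := ⟨0, by rw [iv_eq_zero rfl x, tr_zero]⟩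
  surj x := ⟨0, by rw [iv_eq_zero rfl x, tr_zero]⟩

lemma isX_C : IsX (iv sC (by decide)) where
  zero_s1 := iv_eq_zero rfl
  zero_s2 := iv_eq_zero rfl
  inj x _ := iv_eq_zero rfl x
  ex1 x hx := by
    refine ⟨0, ?_⟩
    rw [tr_zero]
    apply Subtype.ext
    rw [← tr_iv (show v1 ≤ v3 by decide) rfl x, hx]
    rfl
  ex3 x _ := ⟨(⟨(x : fib sC v3).1, fib_mem_of rfl _⟩ : fib sC v1), Subtype.ext rfl⟩
  surj x := ⟨0, by rw [iv_eq_zero rfl x, tr_zero]⟩

lemma isX_D : IsX (iv sD (by decide)) where
  zero_s1 := iv_eq_zero rfl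
  zero_s2 := iv_eq_zero rfl
  inj x _ := iv_eq_zero rfl x
  ex1 x _ := ⟨0, by rw [iv_eq_zero rfl x, tr_zero]⟩
  ex3 x hx := by
    refine ⟨0, ?_⟩
    rw [tr_zero]
    symm
    apply Subtype.ext
    rw [← tr_iv (show v3 ≤ v4 by decide) rfl x, hx]
    rfl
  surj x := ⟨(⟨(x : fib sD v4).1, fib_mem_of rfl _⟩ : fib sD v3), Subtype.ext rfl⟩

lemma not_isX_s44 : ¬ IsX (iv s44 (by decide)) := by
  intro h
  obtain ⟨t, ht⟩ := h.surj (⟨1, fib_mem_of rfl _⟩ : fib s44 v4)
  have h0 : t = 0 := iv_eq_zero rfl t
  rw [h0, tr_zero] at ht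
  have h1 : (0 : ℚ) = 1 := congrArg Subtype.val ht
  exact zero_ne_one h1

theorem not_threeFold : ¬ IsNFoldTorsionFree 3 XX := by
  rintro ⟨F2, ⟨F1, ⟨F0, hF0, h1⟩, h2⟩, h3⟩
  -- the four short exact sequences
  have e1 := ivSC_shortExact s11 sA s0 (by decide) (by decide) (by decide) (by decide) (by decide)
    (by decide) (by decide)
  have e2 := ivSC_shortExact sB s12 s11 (by decide) (by decide) (by decide) (by decide) (by decide)
    (by decide) (by decide)
  have e3 := ivSC_shortExact s33 sC s12 (by decide) (by decide) (by decide) (by decide) (by decide)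
    (by decide) (by decide)
  have e4 := ivSC_shortExact s44 sD s33 (by decide) (by decide) (by decide) (by decide) (by decide)
    (by decide) (by decide)
  -- members of `F1`
  have A3 : XX (iv sA (by decide)) := isX_A
  have B3 : XX (iv sB (by decide)) := isX_B
  have C3 : XX (iv sC (by decide)) := isX_C
  have D3 : XX (iv sD (by decide)) := isX_D
  have A2 := h3.le _ A3
  have B2 := h3.le _ B3
  have C2 := h3.le _ C3
  have D2 := h3.le _ D3
  have A1 := h2.le _ A2
  have B1 := h2.le _ B2
  have C1 := h2.le _ C2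
  have D1 := h2.le _ D2
  have s11_1 : F1 (iv s11 (by decide)) := h1.subobject _ e1 (hF0 _) (hF0 _) (hF0 _) A1
  have s12_1 : F1 (iv s12 (by decide)) := h1.conflation _ e2 (hF0 _) (hF0 _) (hF0 _) B1 s11_1
  have s33_1 : F1 (iv s33 (by decide)) := h1.subobject _ e3 (hF0 _) (hF0 _) (hF0 _) C1
  have s44_1 : F1 (iv s44 (by decide)) := h1.subobject _ e4 (hF0 _) (hF0 _) (hF0 _) D1
  -- members of `F2`
  have s33_2 : F2 (iv s33 (by decide)) := h2.subobject _ e3 s33_1 C1 s12_1 C2
  have s44_2 : F2 (iv s44 (by decide)) := h2.subobject _ e4 s44_1 D1 s33_1 D2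
  -- members of `F3`
  have s44_3 : XX (iv s44 (by decide)) := h3.subobject _ e4 s44_2 D2 s33_2 D3
  exact not_isX_s44 s44_3

end Pool.Agent.V11196.TFree
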